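import Pool.Agent.Q161.EA.Stm
import Pool.Agent.Q91.EL.Sums
import Pool.Agent.Q91.EL.Small
import Pool.Agent.Q51.EL.LSV

/-!
# Project EA, job MSV: the sieve for `m`, with fixed `α`
-/

set_option autoImplicit false

namespace Pool.Agent.Q208.EA

open Polynomial NumberField IsDedekindDomain Finset
open Pool.Agent.Q51.EL
open Pool.Agent.Q161.OD (P1 P2 red)
open Pool.Agent.Q161.EA

/-- the large sieve in dimension one, one class removed for every prime of `R` -/
theorem one_class : ∃ c : ℝ, 0 < c ∧ ∀ (q r : ℕ) (X : ℝ) (R K : Finset ℕ), 1 ≤ X →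
    (∀ l ∈ R, l.Prime ∧ ¬ l ∣ q ∧ (l : ℝ) ^ 2 ≤ X) →
    (∀ k ∈ K, (k : ℝ) ≤ X ∧ ∀ l ∈ R, ¬ l ∣ r + q * k) →
    (K.card : ℝ) ≤ c * X * Real.exp (-(∑ l ∈ R, (1 : ℝ) / l)) := by
  classical
  obtain ⟨c, hc, hsum⟩ := Pool.Agent.Q91.EL.sums 1 one_pos
  refine ⟨24 / c, by positivity, ?_⟩
  intro q r X R K hX hR hK
  have hX0 : 0 ≤ X := by linarith
  set N : ℕ := ⌊X⌋₊ + 1 with hN
  set Q : ℕ := ⌊Real.sqrt X⌋₊ with hQ
  have hQX : ((Q : ℝ)) ^ 2 ≤ X := by
    have h1 : (Q : ℝ) ≤ Real.sqrt X := Nat.floor_le (Real.sqrt_nonneg X)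
    calc ((Q : ℝ)) ^ 2 ≤ (Real.sqrt X) ^ 2 := pow_le_pow_left₀ (Nat.cast_nonneg _) h1 2
      _ = X := Real.sq_sqrt hX0
  have hQN : Q ^ 2 ≤ N := by
    have h1 : Q ^ 2 ≤ ⌊X⌋₊ := by
      apply Nat.le_floor
      push_cast
      exact hQX
    omega
  have hQ1 : 1 ≤ Q := by
    apply Nat.le_floor
    rw [Nat.cast_one]
    exact Real.one_le_sqrt.mpr hX
  have hRQ : ∀ t ∈ R, t ≤ Q := by
    intro t ht
    apply Nat.le_floor
    exact Real.le_sqrt_of_sq_le (hR t ht).2.2
  let Z : Finset (Fin 1 → ℕ) := K.image (fun k => fun _ => k + 1)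
  have hZcard : Z.card = K.card := by
    apply card_image_of_injective
    intro a b hab
    have := congrFun hab 0
    simpa using this
  let Om : (t : ℕ) → Finset (Fin 1 → ZMod t) := fun t =>
    if h : 0 < t then
      haveI : NeZero t := ⟨h.ne'⟩
      univ.filter (fun z => (r : ZMod t) + (q : ZMod t) * (z 0 - 1) ≠ 0)
    else ∅
  have hOm : ∀ (t : ℕ) (h : 0 < t), Om t = haveI : NeZero t := ⟨h.ne'⟩
      univ.filter (fun z => (r : ZMod t) + (q : ZMod t) * (z 0 - 1) ≠ 0) := by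
    intro t h
    simp only [Om, dif_pos h]
  have hls := Pool.Agent.Q51.EL.lsv 1 N Q (fun _ => 0) R Z Om (fun t => 1 / (t : ℝ)) (by omega) hQN
    (fun t ht => (hR t ht).1)
    (by
      intro z hz i
      obtain ⟨k, hk, rfl⟩ := mem_image.mp hz
      have h1 : k ≤ ⌊X⌋₊ := Nat.le_floor (hK k hk).1
      simp only [mem_Ioc]
      omega)
    (fun t ht => by
      have : (0 : ℝ) < t := by exact_mod_cast (hR t ht).1.pos
      positivity)
    (by
      intro t ht
      have htp := (hR t ht).1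
      have : NeZero t := ⟨htp.ne_zero⟩
      have : Fact t.Prime := ⟨htp⟩
      have ht0 : (0 : ℝ) < t := by exact_mod_cast htp.pos
      rw [hOm t htp.pos]
      have hq0 : (q : ZMod t) ≠ 0 := by
        rw [Ne, ZMod.natCast_eq_zero_iff]
        exact (hR t ht).2.1
      let z0 : Fin 1 → ZMod t := fun _ => 1 - (r : ZMod t) / q
      have hsub : (univ.filter (fun z : Fin 1 → ZMod t =>
          (r : ZMod t) + (q : ZMod t) * (z 0 - 1) ≠ 0)) ⊆ univ.erase z0 := by
        intro z hz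
        rw [mem_filter] at hz
        rw [mem_erase]
        refine ⟨?_, mem_univ _⟩
        rintro rfl
        apply hz.2
        simp only [z0]
        field_simp
        ring
      have hcard := card_le_card hsub
      rw [card_erase_of_mem (mem_univ _), card_univ, Fintype.card_fun, ZMod.card,
        Fintype.card_fin, pow_one] at hcard
      have h2 : (((univ.filter (fun z : Fin 1 → ZMod t =>
          (r : ZMod t) + (q : ZMod t) * (z 0 - 1) ≠ 0)).card : ℕ) : ℝ) ≤ ((t - 1 : ℕ) : ℝ) := by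
        exact_mod_cast hcard
      rw [Nat.cast_sub htp.one_lt.le, Nat.cast_one] at h2
      calc _ ≤ (t : ℝ) - 1 := h2
        _ = (1 - 1 / (t : ℝ)) * (t : ℝ) ^ 1 := by field_simp)
    (by
      intro z hz t ht
      have htp := (hR t ht).1
      have : NeZero t := ⟨htp.ne_zero⟩
      rw [hOm t htp.pos, mem_filter]
      refine ⟨mem_univ _, ?_⟩
      obtain ⟨k, hk, rfl⟩ := mem_image.mp hz
      have h1 := (hK k hk).2 t ht
      intro h2
      apply h1
      rw [← ZMod.natCast_eq_zero_iff]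
      push_cast
      push_cast at h2
      rw [add_sub_cancel_right] at h2
      exact h2)
  have hs := hsum Q R (fun t => 1 / (t : ℝ)) hQ1 (fun t ht => (hR t ht).1) hRQ
    (fun t ht => ⟨by positivity, le_refl _⟩)
  rw [hZcard, pow_one] at hls
  have h1 : (K.card : ℝ) * (c * Real.exp (∑ t ∈ R, 1 / (t : ℝ))) ≤ 12 * (N : ℝ) :=
    (mul_le_mul_of_nonneg_left hs (Nat.cast_nonneg _)).trans hls
  have hNX : (N : ℝ) ≤ 2 * X := by
    rw [hN]
    push_cast
    have := Nat.floor_le hX0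
    linarith
  rw [Real.exp_neg]
  have hE : 0 < Real.exp (∑ l ∈ R, (1 : ℝ) / l) := Real.exp_pos _
  rw [← div_eq_mul_inv, le_div_iff₀ hE]
  have h2 : (K.card : ℝ) * Real.exp (∑ l ∈ R, (1 : ℝ) / l) * c ≤ 24 * X := by
    calc (K.card : ℝ) * Real.exp (∑ l ∈ R, (1 : ℝ) / l) * c
        = (K.card : ℝ) * (c * Real.exp (∑ t ∈ R, 1 / (t : ℝ))) := by ring
      _ ≤ 12 * (N : ℝ) := h1
      _ ≤ 24 * X := by linarith
  calc (K.card : ℝ) * Real.exp (∑ l ∈ R, (1 : ℝ) / l) ≤ 24 * X / c := by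
        rw [le_div_iff₀ hc]; exact h2
    _ = 24 / c * X := by ring

theorem sum_sq_le (P : Finset ℕ) (h : ∀ l ∈ P, 2 ≤ l) : ∑ l ∈ P, 1 / ((l : ℝ)) ^ 2 ≤ 1 := by
  have key : ∀ K : ℕ, 1 ≤ K → ∑ n ∈ Icc 2 K, 1 / ((n : ℝ)) ^ 2 ≤ (1 : ℝ) - 1 / (K : ℝ) := by
    intro K hK
    induction K, hK using Nat.le_induction with
    | base => simp
    | succ K hK ih =>
      rw [← Finset.insert_Icc_right_eq_Icc_add_one (by omega), sum_insert (by simp)]
      have hK0 : (0 : ℝ) < K := by exact_mod_cast hK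
      have h1 : 1 / (((K + 1 : ℕ) : ℝ)) ^ 2 ≤ 1 / (K : ℝ) - 1 / ((K + 1 : ℕ) : ℝ) := by
        push_cast
        rw [div_sub_div _ _ hK0.ne' (by positivity), div_le_div_iff₀ (by positivity) (by positivity)]
        nlinarith
      linarith
  have hsub : P ⊆ Icc 2 (P.sup id + 1) := by
    intro l hl
    rw [mem_Icc]
    refine ⟨h l hl, ?_⟩
    have := Finset.le_sup (f := id) hl
    simp only [id] at this
    omega
  have h1 := sum_le_sum_of_subset_of_nonneg (f := fun n : ℕ => 1 / ((n : ℝ)) ^ 2) hsub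
    (fun _ _ _ => by positivity)
  have h2 := key (P.sup id + 1) (by omega)
  have h3 : (0 : ℝ) ≤ 1 / ((P.sup id + 1 : ℕ) : ℝ) := by positivity
  linarith

theorem exp_le_prod (P : Finset ℕ) (h : ∀ l ∈ P, 2 ≤ l) :
    Real.exp (-(∑ l ∈ P, (1 : ℝ) / l)) ≤ Real.exp 2 * ∏ l ∈ P, (1 - 1 / (l : ℝ)) := by
  have h1 : ∀ l ∈ P, Real.exp (-(1 / (l : ℝ)) - 2 * (1 / (l : ℝ) ^ 2)) ≤ 1 - 1 / (l : ℝ) := by
    intro l hl
    have hl2 : (2 : ℝ) ≤ l := by exact_mod_cast h l hl
    set x : ℝ := 1 / (l : ℝ) with hx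
    have hx0 : 0 < x := by positivity
    have hx1 : x ≤ 1 / 2 := by
      rw [hx]; exact one_div_le_one_div_of_le two_pos hl2
    have e1 : 1 / (l : ℝ) ^ 2 = x ^ 2 := by rw [hx, one_div_pow]
    rw [e1]
    have h2 : 1 / (1 - x) ≤ Real.exp (x / (1 - x)) := by
      have h3 := Real.add_one_le_exp (x / (1 - x))
      have h4 : x / (1 - x) + 1 = 1 / (1 - x) := by
        have : 1 - x ≠ 0 := by linarith
        field_simp
        ring
      rwa [h4] at h3
    have h5 : x / (1 - x) ≤ x + 2 * x ^ 2 := by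
      rw [div_le_iff₀ (by linarith)]
      nlinarith [mul_pos hx0 hx0]
    have h6 : 1 / (1 - x) ≤ Real.exp (x + 2 * x ^ 2) := h2.trans (Real.exp_le_exp.mpr h5)
    have h7 : -x - 2 * x ^ 2 = -(x + 2 * x ^ 2) := by ring
    rw [h7, Real.exp_neg, inv_le_comm₀ (Real.exp_pos _) (by linarith)]
    rwa [one_div] at h6
  have h2 : ∏ l ∈ P, Real.exp (-(1 / (l : ℝ)) - 2 * (1 / (l : ℝ) ^ 2)) ≤
      ∏ l ∈ P, (1 - 1 / (l : ℝ)) :=
    prod_le_prod (fun _ _ => (Real.exp_pos _).le) h1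
  rw [← Real.exp_sum, sum_sub_distrib, ← Finset.mul_sum, Finset.sum_neg_distrib] at h2
  have h3 := sum_sq_le P h
  calc Real.exp (-(∑ l ∈ P, (1 : ℝ) / l))
      = Real.exp (2 * ∑ l ∈ P, 1 / (l : ℝ) ^ 2) *
        Real.exp (-(∑ l ∈ P, (1 : ℝ) / l) - 2 * ∑ l ∈ P, 1 / (l : ℝ) ^ 2) := by
        rw [← Real.exp_add]; congr 1; ring
    _ ≤ Real.exp 2 * ∏ l ∈ P, (1 - 1 / (l : ℝ)) := by
        apply mul_le_mul _ h2 (Real.exp_pos _).le (Real.exp_pos _).le
        apply Real.exp_le_exp.mpr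
        linarith

section
variable {L : Type} [Field L] [NumberField L]

theorem un_of_not_dvd {l : ℕ} (hl : l.Prime) {α : 𝓞 L}
    (h : ¬ l ∣ Ideal.absNorm (Ideal.span {α})) : Un l α := by
  intro v hv hα
  apply h
  have h1 : ((Ideal.absNorm (Ideal.span {α}) : ℕ) : 𝓞 L) ∈ v.asIdeal :=
    ((Ideal.span_singleton_le_iff_mem _).mpr hα) (Ideal.absNorm_mem _)
  have h2 := Pool.Agent.Q91.EL.int_mem hl hv (r := ((Ideal.absNorm (Ideal.span {α}) : ℕ) : ℤ))
    (by push_cast; exact h1)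
  exact_mod_cast h2

omit [NumberField L] in
theorem red_eq {l : ℕ} {α : 𝓞 L} {m m' : ℤ} (h : (l : ℤ) ∣ m - m') :
    red L l (α, m) = red L l (α, m') := by
  unfold Pool.Agent.Q161.OD.red
  simp only [Prod.mk.injEq, true_and]
  rw [← sub_eq_zero, ← Int.cast_sub]
  exact (ZMod.intCast_zmod_eq_zero_iff_dvd _ _).mpr h

end

theorem msv : S_SAT → S_MSV := by
  intro hsat L _ _ B hB
  obtain ⟨c, hc, hone⟩ := one_class
  refine ⟨c * Real.exp 2, by positivity, ?_⟩
  intro T hT α M P R S hα hM hN hPR hP hR hS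
  classical
  set N : ℕ := Ideal.absNorm (Ideal.span {α}) with hNdef
  have hN0 : N ≠ 0 := by
    rw [hNdef, Ne, Ideal.absNorm_eq_zero_iff, Ideal.span_singleton_eq_bot]
    exact hα
  set Pd : Finset ℕ := P.filter (fun l => l ∣ N) with hPd
  set Pn : Finset ℕ := P.filter (fun l => ¬ l ∣ N) with hPn
  set P' : Finset ℕ := Pn.filter (fun l => om T l α ≠ l) with hP'
  set q : ℕ := ∏ l ∈ Pd, l with hq
  have hPdP : ∀ l ∈ Pd, l ∈ P ∧ l ∣ N := fun l hl => mem_filter.mp hl
  have hPnP : ∀ l ∈ Pn, l ∈ P ∧ ¬ l ∣ N := fun l hl => mem_filter.mp hl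
  have hqN : q ∣ N := Finset.prod_primes_dvd N
    (fun l hl => (hP l (hPdP l hl).1).1.prime) (fun l hl => (hPdP l hl).2)
  have hq0 : 0 < q := Nat.pos_of_dvd_of_pos hqN (Nat.pos_of_ne_zero hN0)
  have hq0' : (0 : ℝ) < q := by exact_mod_cast hq0
  have hqle : (q : ℝ) ≤ N := by exact_mod_cast Nat.le_of_dvd (Nat.pos_of_ne_zero hN0) hqN
  have hqM : (q : ℝ) ^ 2 ≤ M := (pow_le_pow_left₀ hq0'.le hqle 2).trans hN
  have hq1 : (1 : ℝ) ≤ q := by exact_mod_cast hq0
  have hqM1 : (q : ℝ) ≤ M := by nlinarith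
  have hX : 1 ≤ M / q := by rw [le_div_iff₀ hq0']; linarith
  have hlX : ∀ l : ℕ, (l : ℝ) ^ 4 ≤ M → (l : ℝ) ^ 2 ≤ M / q := by
    intro l hl
    rw [le_div_iff₀ hq0']
    have h1 : ((l : ℝ) ^ 2 * q) ^ 2 ≤ M ^ 2 := by
      calc ((l : ℝ) ^ 2 * q) ^ 2 = (l : ℝ) ^ 4 * (q : ℝ) ^ 2 := by ring
        _ ≤ M * M := mul_le_mul hl hqM (by positivity) (by linarith)
        _ = M ^ 2 := by ring
    exact le_of_sq_le_sq h1 (by linarith)
  -- invariance
  have hinv : ∀ l ∈ P, ∀ m m' : ℤ, (l : ℤ) ∣ m - m' → (α, m) ∈ Sat l T → (α, m') ∈ Sat l T := by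
    intro l hl m m' hd hm
    have hTl := hT l (hP l hl).1 (hP l hl).2.1
    exact (hsat L l T (hP l hl).1 hTl.1 hTl.2).2.2.2 _ _ (red_eq hd) hm
  -- the primes which do not divide the norm
  have hunit : ∀ l ∈ Pn, ∀ m : ℤ, ¬ (l : ℤ) ∣ m → (α, m) ∈ Sat l T := by
    intro l hl m hm
    left
    exact ⟨un_of_not_dvd (hP l (hPnP l hl).1).1 (hPnP l hl).2, Or.inl hm⟩
  have hom : ∀ l ∈ Pn, 1 - 1 / (l : ℝ) ≤ (om T l α : ℝ) / l := by
    intro l hl
    have hlp := (hP l (hPnP l hl).1).1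
    have hl0 : (0 : ℝ) < l := by exact_mod_cast hlp.pos
    have h1 : (range l).erase 0 ⊆ (range l).filter (fun m : ℕ => (α, (m : ℤ)) ∈ Sat l T) := by
      intro m hm
      rw [mem_erase, mem_range] at hm
      rw [mem_filter, mem_range]
      refine ⟨hm.2, hunit l hl _ ?_⟩
      intro hd
      have h2 : l ∣ m := by exact_mod_cast hd
      exact absurd (Nat.le_of_dvd (Nat.pos_of_ne_zero hm.1) h2) (by omega)
    have h2 := card_le_card h1
    rw [card_erase_of_mem (mem_range.mpr hlp.pos), card_range] at h2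
    have h3 : ((l - 1 : ℕ) : ℝ) ≤ (om T l α : ℝ) := by
      unfold om
      exact_mod_cast h2
    rw [Nat.cast_sub hlp.one_lt.le, Nat.cast_one] at h3
    rw [le_div_iff₀ hl0]
    calc (1 - 1 / (l : ℝ)) * l = (l : ℝ) - 1 := by field_simp
      _ ≤ _ := h3
  have hnd : ∀ l ∈ P', ∀ m ∈ S, ¬ l ∣ m := by
    intro l hl m hm hd
    rw [hP', mem_filter] at hl
    apply hl.2
    have hlP := (hPnP l hl.1).1
    have hm' := (hS m hm).2.2.1 l hlP
    unfold om
    rw [filter_true_of_mem, card_range]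
    intro x hx
    by_cases hxd : (l : ℤ) ∣ (x : ℤ)
    · exact hinv l hlP (m : ℤ) (x : ℤ) (dvd_sub (by exact_mod_cast hd) hxd) hm'
    · exact hunit l hl.1 _ hxd
  -- the sieve in one class
  set E : ℝ := Real.exp (-(∑ l ∈ P' ∪ R, (1 : ℝ) / l)) with hE
  have hE0 : 0 < E := Real.exp_pos _
  set K : Finset ℕ := S.image (fun m => m % q) with hK
  have hfib : ∀ r ∈ K, (((S.filter (fun m => m % q = r)).card : ℕ) : ℝ) ≤ c * (M / q) * E := by
    intro r _
    set F : Finset ℕ := S.filter (fun m => m % q = r) with hF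
    have hinj : Set.InjOn (fun m : ℕ => m / q) (F : Set ℕ) := by
      intro x hx y hy hxy
      simp only [hF, coe_filter, Set.mem_setOf_eq] at hx hy
      simp only at hxy
      rw [← Nat.mod_add_div x q, ← Nat.mod_add_div y q, hx.2, hy.2, hxy]
    rw [← card_image_of_injOn hinj]
    refine hone q r (M / q) (P' ∪ R) _ hX ?_ ?_
    · intro l hl
      rcases mem_union.mp hl with hl | hl
      · rw [hP', mem_filter] at hl
        have h1 := hPnP l hl.1
        exact ⟨(hP l h1.1).1, fun hd => h1.2 (hd.trans hqN), hlX l (hP l h1.1).2.2⟩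
      · refine ⟨(hR l hl).1, ?_, hlX l (hR l hl).2⟩
        intro hd
        obtain ⟨p, hp, hlp⟩ := ((hR l hl).1.prime.dvd_finset_prod_iff (fun x => x)).mp hd
        have h1 := hPdP p hp
        rw [Nat.prime_dvd_prime_iff_eq (hR l hl).1 (hP p h1.1).1] at hlp
        subst hlp
        exact (Finset.disjoint_left.mp hPR h1.1) hl
    · intro k hk
      obtain ⟨m, hm, rfl⟩ := mem_image.mp hk
      rw [hF, mem_filter] at hm
      have hmS := hS m hm.1
      refine ⟨?_, ?_⟩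
      · refine Nat.cast_div_le.trans ?_
        exact div_le_div_of_nonneg_right hmS.2.1 hq0'.le
      · intro l hl
        have e1 : r + q * (m / q) = m := by
          rw [← hm.2]; exact Nat.mod_add_div m q
        rw [e1]
        rcases mem_union.mp hl with hl | hl
        · exact hnd l hl m hm.1
        · exact hmS.2.2.2 l hl
  have hKcard : (K.card : ℝ) ≤ ∏ l ∈ Pd, (om T l α : ℝ) := by
    have h1 : K.card ≤ (Finset.pi Pd
        (fun l => (range l).filter (fun m : ℕ => (α, (m : ℤ)) ∈ Sat l T))).card := by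
      apply card_le_card_of_injOn (fun r => fun l _ => r % l)
      · intro r hr
        rw [mem_coe, hK, mem_image] at hr
        obtain ⟨m, hm, rfl⟩ := hr
        rw [mem_coe, mem_pi]
        intro l hl
        have hlP := (hPdP l hl).1
        have hlq : l ∣ q := Finset.dvd_prod_of_mem (fun x => x) hl
        rw [mem_filter, mem_range]
        refine ⟨Nat.mod_lt _ (hP l hlP).1.pos, ?_⟩
        refine hinv l hlP (m : ℤ) _ ?_ ((hS m hm).2.2.1 l hlP)
        show (l : ℤ) ∣ (m : ℤ) - (((m % q) % l : ℕ) : ℤ)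
        rw [Nat.mod_mod_of_dvd _ hlq]
        rw [Int.natCast_mod]
        exact Int.dvd_self_sub_emod
      · intro r hr r' hr' hrr
        rw [mem_coe, hK, mem_image] at hr hr'
        obtain ⟨m, hm, rfl⟩ := hr
        obtain ⟨m', hm', rfl⟩ := hr'
        have h2 : ∀ l ∈ Pd, l ∣ ((m % q : ℕ) - (m' % q : ℕ) : ℤ).natAbs := by
          intro l hl
          have h3 := congrFun (congrFun hrr l) hl
          simp only at h3
          have h4 : (l : ℤ) ∣ ((m' % q : ℕ) : ℤ) - ((m % q : ℕ) : ℤ) :=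
            (Nat.modEq_iff_dvd).mp h3
          rw [← Int.natCast_dvd_natCast, Int.dvd_natAbs]
          rw [← dvd_neg, neg_sub]
          exact h4
        have h5 : q ∣ ((m % q : ℕ) - (m' % q : ℕ) : ℤ).natAbs :=
          Finset.prod_primes_dvd _ (fun l hl => (hP l (hPdP l hl).1).1.prime) h2
        have h6 := Nat.mod_lt m hq0
        have h7 := Nat.mod_lt m' hq0
        have h8 : ((m % q : ℕ) - (m' % q : ℕ) : ℤ).natAbs < q := by omega
        have h9 := Nat.eq_zero_of_dvd_of_lt h5 h8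
        omega
    rw [card_pi] at h1
    unfold om
    exact_mod_cast h1
  have hcard : (S.card : ℝ) ≤ (∏ l ∈ Pd, (om T l α : ℝ)) * (c * (M / q) * E) := by
    have h1 : S.card = ∑ r ∈ K, (S.filter (fun m => m % q = r)).card :=
      card_eq_sum_card_image _ _
    rw [h1]
    push_cast
    calc _ ≤ ∑ r ∈ K, c * (M / q) * E := sum_le_sum hfib
      _ = (K.card : ℝ) * (c * (M / q) * E) := by rw [sum_const, nsmul_eq_mul]
      _ ≤ _ := mul_le_mul_of_nonneg_right hKcard (by positivity)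
  -- the exponential
  have hdis : Disjoint P' R := by
    refine Finset.disjoint_of_subset_left ?_ hPR
    intro l hl
    rw [hP', mem_filter] at hl
    exact (hPnP l hl.1).1
  have hE1 : E ≤ Real.exp 2 * (∏ l ∈ P', (1 - 1 / (l : ℝ))) *
      Real.exp (- ∑ l ∈ R, (1 : ℝ) / l) := by
    rw [hE, sum_union hdis, neg_add, Real.exp_add]
    apply mul_le_mul_of_nonneg_right _ (Real.exp_pos _).le
    apply exp_le_prod
    intro l hl
    rw [hP', mem_filter] at hl
    exact (hP l (hPnP l hl.1).1).1.two_le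
  have hpos : ∀ l ∈ Pn, 0 ≤ 1 - 1 / (l : ℝ) := by
    intro l hl
    have h1 : (1 : ℝ) ≤ l := by exact_mod_cast (hP l (hPnP l hl).1).1.one_lt.le
    have h2 : 1 / (l : ℝ) ≤ 1 := by
      rw [div_le_one (by linarith)]; exact h1
    linarith
  have hprod : ∏ l ∈ P', (1 - 1 / (l : ℝ)) ≤ ∏ l ∈ Pn, (om T l α : ℝ) / l := by
    rw [hP', prod_filter]
    apply prod_le_prod
    · intro l hl
      split_ifs
      · exact hpos l hl
      · exact zero_le_one
    · intro l hl
      split_ifs with h1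
      · exact hom l hl
      · rw [not_not] at h1
        rw [h1, div_self]
        have : l ≠ 0 := (hP l (hPnP l hl).1).1.ne_zero
        exact_mod_cast this
  have hsplit : ∏ l ∈ P, (om T l α : ℝ) / l =
      (∏ l ∈ Pd, (om T l α : ℝ) / l) * ∏ l ∈ Pn, (om T l α : ℝ) / l := by
    rw [hPd, hPn, prod_filter_mul_prod_filter_not]
  have hPdq : (∏ l ∈ Pd, (om T l α : ℝ) / l) = (∏ l ∈ Pd, (om T l α : ℝ)) / q := by
    rw [prod_div_distrib, hq]
    push_cast
    rfl
  have hom0 : 0 ≤ ∏ l ∈ Pd, (om T l α : ℝ) := prod_nonneg (fun _ _ => Nat.cast_nonneg _)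
  calc (S.card : ℝ) ≤ (∏ l ∈ Pd, (om T l α : ℝ)) * (c * (M / q) * E) := hcard
    _ ≤ (∏ l ∈ Pd, (om T l α : ℝ)) * (c * (M / q) *
        (Real.exp 2 * (∏ l ∈ Pn, (om T l α : ℝ) / l) *
          Real.exp (- ∑ l ∈ R, (1 : ℝ) / l))) := by
        apply mul_le_mul_of_nonneg_left _ hom0
        apply mul_le_mul_of_nonneg_left _ (by positivity)
        refine hE1.trans ?_
        apply mul_le_mul_of_nonneg_right _ (Real.exp_pos _).le
        exact mul_le_mul_of_nonneg_left hprod (Real.exp_pos _).le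
    _ = c * Real.exp 2 * M * (∏ l ∈ P, (om T l α : ℝ) / l) *
        Real.exp (- ∑ l ∈ R, (1 : ℝ) / l) := by
        rw [hsplit, hPdq]
        field_simp

end Pool.Agent.Q208.EA
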