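import Pool.Agent.Q161.EA.Stm
import Pool.Agent.Q91.EL.Small

/-!
# Project EA, job REGB: the boxes with small `m`
-/

set_option autoImplicit false

namespace Pool.Agent.Q208.EA

open Polynomial NumberField IsDedekindDomain Finset
open Pool.Agent.Q51.EL
open Pool.Agent.Q161.OD (P1 P2 red)
open Pool.Agent.Q161.EA

theorem mem_pr {Y : ℝ} {l : ℕ} : l ∈ pr Y ↔ l.Prime ∧ (l : ℝ) ≤ Y := by
  unfold pr
  rw [mem_filter, mem_Icc]
  constructor
  · rintro ⟨⟨h1, h2⟩, h3⟩
    exact ⟨h3, (Nat.le_floor_iff' h3.ne_zero).mp h2⟩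
  · rintro ⟨h1, h2⟩
    exact ⟨⟨h1.one_lt.le, (Nat.le_floor_iff' h1.ne_zero).mpr h2⟩, h1⟩

open Classical in
theorem sum_R (L : Type) [Field L] [NumberField L] (n : ℕ)
    (hn : ∀ l : ℕ, l.Prime → N1 L l ≤ n) (B : ℕ) (hB : B ≠ 0) (C4 : ℝ)
    (hMer : ∀ Y : ℝ, 3 ≤ Y → |∑ l ∈ pr Y, (N1 L l : ℝ) / l - Real.log (Real.log Y)| ≤ C4)
    (M1 Y : ℝ) (h9 : 9 ≤ M1) (hMY : M1 ^ 4 ≤ Y) (m : ℤ) (hm1 : 1 ≤ m) (hmM : (m : ℝ) ≤ M1) :
    Real.log (Real.log Y) - Real.log (Real.log M1) - (2 * C4 + Real.log 2 + n * B + n) ≤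
      ∑ l ∈ (pr (Real.sqrt (Real.sqrt Y))).filter
        (fun l => ¬ l ∣ B ∧ Real.sqrt M1 < (l : ℝ) ∧ ¬ (l : ℤ) ∣ m), (N1 L l : ℝ) / l := by
  set f : ℕ → ℝ := fun l => (N1 L l : ℝ) / l with hf
  have hf0 : ∀ l, 0 ≤ f l := fun l => by positivity
  have hfn : ∀ l : ℕ, l.Prime → f l ≤ n := by
    intro l hl
    have h1 : (1 : ℝ) ≤ l := by exact_mod_cast hl.one_lt.le
    have h2 : (N1 L l : ℝ) ≤ n := by exact_mod_cast hn l hl
    simp only [hf]
    rw [div_le_iff₀ (by linarith)]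
    nlinarith [Nat.cast_nonneg (α := ℝ) n]
  set A : Finset ℕ := pr (Real.sqrt (Real.sqrt Y)) with hA
  set R : Finset ℕ := A.filter (fun l => ¬ l ∣ B ∧ Real.sqrt M1 < (l : ℝ) ∧ ¬ (l : ℤ) ∣ m) with hR
  set W : Finset ℕ := A.filter (fun l => Real.sqrt M1 < (l : ℝ) ∧ (l : ℤ) ∣ m) with hW
  have hsub : A ⊆ R ∪ (pr (Real.sqrt M1) ∪ (B.primeFactors ∪ W)) := by
    intro l hl
    have hlp := (mem_pr.mp hl).1
    simp only [mem_union]
    by_cases h1 : l ∣ B
    · right; right; left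
      exact Nat.mem_primeFactors.mpr ⟨hlp, h1, hB⟩
    · by_cases h2 : Real.sqrt M1 < (l : ℝ)
      · by_cases h3 : (l : ℤ) ∣ m
        · right; right; right
          exact mem_filter.mpr ⟨hl, h2, h3⟩
        · left
          exact mem_filter.mpr ⟨hl, h1, h2, h3⟩
      · right; left
        exact mem_pr.mpr ⟨hlp, not_lt.mp h2⟩
  have hun : ∀ s t : Finset ℕ, ∑ l ∈ s ∪ t, f l ≤ ∑ l ∈ s, f l + ∑ l ∈ t, f l := by
    intro s t
    rw [← sum_union_inter]
    exact le_add_of_nonneg_right (sum_nonneg fun l _ => hf0 l)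
  have hM0 : 0 ≤ M1 := by linarith
  have hY1 : (6561 : ℝ) ≤ Y := by
    refine le_trans ?_ hMY
    calc (6561 : ℝ) = 9 ^ 4 := by norm_num
      _ ≤ M1 ^ 4 := pow_le_pow_left₀ (by norm_num) h9 4
  have hY0 : 0 ≤ Y := by linarith
  have hs1 : 3 ≤ Real.sqrt M1 := by
    apply Real.le_sqrt_of_sq_le; linarith
  have hs2 : (9 : ℝ) ≤ Real.sqrt (Real.sqrt Y) := by
    apply Real.le_sqrt_of_sq_le
    apply Real.le_sqrt_of_sq_le
    linarith
  have hW1 : W.card ≤ 1 := by
    rw [card_le_one]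
    intro a ha b hb
    by_contra hab
    rw [hW, mem_filter] at ha hb
    have hap := (mem_pr.mp ha.1).1
    have hbp := (mem_pr.mp hb.1).1
    have hcop : IsCoprime (a : ℤ) (b : ℤ) := by
      rw [Nat.isCoprime_iff_coprime]
      exact (Nat.coprime_primes hap hbp).mpr hab
    have hd : ((a : ℤ) * b) ∣ m := hcop.mul_dvd ha.2.2 hb.2.2
    have h1 : (a : ℤ) * b ≤ m := Int.le_of_dvd (by omega) hd
    have h2 : ((a : ℝ)) * b ≤ m := by exact_mod_cast h1
    have h3 : Real.sqrt M1 * Real.sqrt M1 < (a : ℝ) * b :=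
      mul_lt_mul'' ha.2.1 hb.2.1 (Real.sqrt_nonneg _) (Real.sqrt_nonneg _)
    rw [Real.mul_self_sqrt hM0] at h3
    linarith
  have hsW : ∑ l ∈ W, f l ≤ n := by
    have h1 : ∑ l ∈ W, f l ≤ W.card • (n : ℝ) := by
      apply sum_le_card_nsmul
      intro l hl
      rw [hW, mem_filter] at hl
      exact hfn l (mem_pr.mp hl.1).1
    rw [nsmul_eq_mul] at h1
    have h2 : (W.card : ℝ) ≤ 1 := by exact_mod_cast hW1
    nlinarith [Nat.cast_nonneg (α := ℝ) n]
  have hsB : ∑ l ∈ B.primeFactors, f l ≤ n * B := by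
    have h1 : ∑ l ∈ B.primeFactors, f l ≤ B.primeFactors.card • (n : ℝ) := by
      apply sum_le_card_nsmul
      intro l hl
      exact hfn l (Nat.prime_of_mem_primeFactors hl)
    rw [nsmul_eq_mul] at h1
    have h2 : B.primeFactors ⊆ Icc 1 B := by
      intro l hl
      rw [mem_Icc]
      exact ⟨(Nat.prime_of_mem_primeFactors hl).one_lt.le,
        Nat.le_of_dvd (Nat.pos_of_ne_zero hB) (Nat.dvd_of_mem_primeFactors hl)⟩
    have h3 := card_le_card h2
    rw [Nat.card_Icc, Nat.add_sub_cancel] at h3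
    have h4 : (B.primeFactors.card : ℝ) ≤ B := by exact_mod_cast h3
    nlinarith [Nat.cast_nonneg (α := ℝ) n]
  have hA1 : ∑ l ∈ A, f l ≤ ∑ l ∈ R, f l + (∑ l ∈ pr (Real.sqrt M1), f l + (n * B + n)) := by
    calc ∑ l ∈ A, f l ≤ ∑ l ∈ R ∪ (pr (Real.sqrt M1) ∪ (B.primeFactors ∪ W)), f l :=
          sum_le_sum_of_subset_of_nonneg hsub (fun l _ _ => hf0 l)
      _ ≤ ∑ l ∈ R, f l + ∑ l ∈ pr (Real.sqrt M1) ∪ (B.primeFactors ∪ W), f l := hun _ _
      _ ≤ ∑ l ∈ R, f l + (∑ l ∈ pr (Real.sqrt M1), f l + ∑ l ∈ B.primeFactors ∪ W, f l) := by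
          linarith [hun (pr (Real.sqrt M1)) (B.primeFactors ∪ W)]
      _ ≤ ∑ l ∈ R, f l + (∑ l ∈ pr (Real.sqrt M1), f l +
          (∑ l ∈ B.primeFactors, f l + ∑ l ∈ W, f l)) := by
          linarith [hun B.primeFactors W]
      _ ≤ _ := by linarith
  have hm1' := abs_le.mp (hMer (Real.sqrt M1) hs1)
  have hm2' := abs_le.mp (hMer (Real.sqrt (Real.sqrt Y)) (by linarith))
  have hlM : 0 < Real.log M1 := Real.log_pos (by linarith)
  have hlY : 0 < Real.log Y := Real.log_pos (by linarith)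
  have e1 : Real.log (Real.log (Real.sqrt M1)) = Real.log (Real.log M1) - Real.log 2 := by
    rw [Real.log_sqrt hM0, Real.log_div hlM.ne' two_ne_zero]
  have e2 : Real.log (Real.log (Real.sqrt (Real.sqrt Y))) =
      Real.log (Real.log Y) - 2 * Real.log 2 := by
    rw [Real.log_sqrt (Real.sqrt_nonneg _), Real.log_sqrt hY0,
      Real.log_div (by positivity) two_ne_zero, Real.log_div hlY.ne' two_ne_zero]
    ring
  rw [e1] at hm1'
  rw [e2] at hm2'
  have h1 := hm1'.2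
  have h2 := hm2'.1
  linarith

theorem regb : S_COR → S_FSM → S_ASV → S_MER → S_REGB := by
  intro hcor hfsm hasv hmer L _ _ h3 B hB
  classical
  set n : ℕ := Module.finrank ℚ L with hn
  obtain ⟨C1, hC1, hcor⟩ := hcor L h3 B hB
  obtain ⟨C2, hC2, hfsm⟩ := hfsm L h3 B hB
  obtain ⟨C3, hC3, hasv⟩ := hasv L h3 B hB
  obtain ⟨C4, hmer⟩ := hmer L
  have hram := (Pool.Agent.Q91.EL.ram L).2
  set C5 : ℝ := 2 * C4 + Real.log 2 + n * B + n with hC5
  have hl0 : 0 < Real.log 6561 := Real.log_pos (by norm_num)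
  refine ⟨C1 * (1 + Real.log 6561) + 18 * C2 * C3 * Real.exp (C5 / 2), by positivity, ?_⟩
  intro T hT Y M hM hMY
  have hMle : M ≤ Y := by
    refine le_trans ?_ hMY
    calc M = M ^ 1 := (pow_one M).symm
      _ ≤ M ^ 4 := pow_le_pow_right₀ hM (by norm_num)
  have hY1 : 1 ≤ Y := hM.trans hMle
  have hmin : min Y M = M := min_eq_right hMle
  obtain ⟨hfin, hcnt⟩ := hcor T Y M hY1 hM (fun l hl hlB _ => hT l hl hlB)
  rw [hmin] at hcnt
  set U : Set (𝓞 L × ℤ) := {p ∈ T | (∀ σ : L →+* ℂ, ‖σ (p.1 : L)‖ ≤ Y) ∧ |(p.2 : ℝ)| ≤ M} with hU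
  set S : Set (𝓞 L × ℤ) :=
    {p ∈ T | 1 ≤ p.2 ∧ (p.2 : ℝ) ≤ M ∧ ∀ σ : L →+* ℂ, ‖σ (p.1 : L)‖ ≤ Y} with hS
  have hSU : S ⊆ U := by
    rintro p ⟨h1, h2, h3, h4⟩
    refine ⟨h1, h4, ?_⟩
    have h5 : (1 : ℝ) ≤ p.2 := by exact_mod_cast h2
    rw [abs_of_nonneg (by linarith)]
    exact h3
  have hSfin : S.Finite := hfin.subset hSU
  refine ⟨hSfin, ?_⟩
  have hSU' : (S.ncard : ℝ) ≤ U.ncard := by exact_mod_cast Set.ncard_le_ncard hSU hfin
  have hlM : 0 ≤ Real.log M := Real.log_nonneg hM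
  have hlY : 0 ≤ Real.log Y := Real.log_nonneg hY1
  have hYn : 0 < Y ^ n := by positivity
  rw [← Real.sqrt_eq_rpow, ← Real.sqrt_eq_rpow]
  by_cases hY9 : Y < 6561
  · -- small Y
    have h1 : (S.ncard : ℝ) ≤ C1 * Y ^ n * M := by
      refine hSU'.trans ?_
      refine le_trans ?_ hcnt
      have : (0 : ℝ) ≤ (U.ncard : ℝ) := Nat.cast_nonneg _
      nlinarith
    have h2 : Real.sqrt (1 + Real.log Y) ≤ Real.sqrt (1 + Real.log 6561) := by
      apply Real.sqrt_le_sqrt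
      have := Real.log_le_log (by linarith) hY9.le
      linarith
    have h3 : Real.sqrt (1 + Real.log M) ≤ Real.sqrt (1 + Real.log 6561) := by
      apply Real.sqrt_le_sqrt
      have := Real.log_le_log (by linarith) (hMle.trans hY9.le)
      linarith
    have h4 : Real.sqrt (1 + Real.log Y) * Real.sqrt (1 + Real.log M) ≤ 1 + Real.log 6561 := by
      calc _ ≤ Real.sqrt (1 + Real.log 6561) * Real.sqrt (1 + Real.log 6561) :=
            mul_le_mul h2 h3 (Real.sqrt_nonneg _) (Real.sqrt_nonneg _)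
        _ = _ := Real.mul_self_sqrt (by linarith)
    calc (S.ncard : ℝ) * (Real.sqrt (1 + Real.log Y) * Real.sqrt (1 + Real.log M))
        ≤ (C1 * Y ^ n * M) * (1 + Real.log 6561) :=
          mul_le_mul h1 h4 (by positivity) (by positivity)
      _ = C1 * (1 + Real.log 6561) * Y ^ n * M := by ring
      _ ≤ _ := by
          have : 0 ≤ 18 * C2 * C3 * Real.exp (C5 / 2) * Y ^ n * M := by positivity
          linarith
  · -- large Y
    rw [not_lt] at hY9
    set M1 : ℝ := max M 9 with hM1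
    have hM9 : 9 ≤ M1 := le_max_right _ _
    have hMM1 : M ≤ M1 := le_max_left _ _
    have hM1Y : M1 ^ 4 ≤ Y := by
      rcases max_choice M 9 with h | h
      · rw [hM1, h]; exact hMY
      · rw [hM1, h]; norm_num; exact hY9
    have hM1M : M1 ≤ 9 * M := by
      apply max_le <;> linarith
    have hM1sq : M1 ^ 2 ≤ Y := by
      refine le_trans ?_ hM1Y
      exact pow_le_pow_right₀ (by linarith) (by norm_num)
    set P : Finset ℕ := (pr (Real.sqrt M1)).filter (fun l => ¬ l ∣ B) with hP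
    have hPm : ∀ l ∈ P, l.Prime ∧ ¬ l ∣ B ∧ (l : ℝ) ≤ Real.sqrt M1 := by
      intro l hl
      rw [hP, mem_filter] at hl
      exact ⟨(mem_pr.mp hl.1).1, hl.2, (mem_pr.mp hl.1).2⟩
    have hPm2 : ∀ l ∈ P, (l : ℝ) ^ 2 ≤ M1 := by
      intro l hl
      calc (l : ℝ) ^ 2 ≤ (Real.sqrt M1) ^ 2 := pow_le_pow_left₀ (Nat.cast_nonneg _) (hPm l hl).2.2 2
        _ = M1 := Real.sq_sqrt (by linarith)
    have hPm4 : ∀ l ∈ P, (l : ℝ) ^ 4 ≤ Y := by
      intro l hl
      calc (l : ℝ) ^ 4 = ((l : ℝ) ^ 2) ^ 2 := by ring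
        _ ≤ M1 ^ 2 := pow_le_pow_left₀ (by positivity) (hPm2 l hl) 2
        _ ≤ Y := hM1sq
    set Rm : ℤ → Finset ℕ := fun m => (pr (Real.sqrt (Real.sqrt Y))).filter
        (fun l => ¬ l ∣ B ∧ Real.sqrt M1 < (l : ℝ) ∧ ¬ (l : ℤ) ∣ m) with hRm
    set I : Finset ℤ := Icc 1 ⌊M⌋ with hI
    have hImem : ∀ m ∈ I, 1 ≤ m ∧ (m : ℝ) ≤ M := by
      intro m hm
      rw [hI, mem_Icc] at hm
      exact ⟨hm.1, Int.le_floor.mp hm.2⟩
    set w : ℤ → ℝ := fun m => ∏ l ∈ P, (oma T l m : ℝ) / (l : ℝ) ^ n with hw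
    have hw0 : ∀ m, 0 ≤ w m := fun m => prod_nonneg (fun l _ => by positivity)
    have hlM1 : 0 < Real.log M1 := Real.log_pos (by linarith)
    have hlY1 : 1 ≤ Real.log Y := by
      rw [Real.le_log_iff_exp_le (by linarith)]
      have := Real.exp_one_lt_d9
      linarith
    set G : ℝ := Real.exp (C5 / 2) * (Real.sqrt (Real.log M1) / Real.sqrt (Real.log Y)) with hG
    have hsY : 0 < Real.sqrt (Real.log Y) := Real.sqrt_pos.mpr (by linarith)
    have hG0 : 0 ≤ G := by positivity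
    have hfib : ∀ m ∈ I, {α : 𝓞 L | (α, m) ∈ T ∧ ∀ σ : L →+* ℂ, ‖σ (α : L)‖ ≤ Y}.Finite ∧
        (({α : 𝓞 L | (α, m) ∈ T ∧ ∀ σ : L →+* ℂ, ‖σ (α : L)‖ ≤ Y}.ncard : ℕ) : ℝ) ≤
          C3 * Y ^ n * w m * G := by
      intro m hm
      obtain ⟨hm1, hmM⟩ := hImem m hm
      have hm1' : (1 : ℝ) ≤ m := by exact_mod_cast hm1
      have hmsq : (m : ℝ) ^ 2 ≤ Y := by
        refine le_trans ?_ hM1sq
        exact pow_le_pow_left₀ (by linarith) (hmM.trans hMM1) 2
      have h1 := hasv T hT m Y P (Rm m) (by omega) hY1 hmsq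
        (by
          rw [Finset.disjoint_left]
          intro l hl hl'
          rw [hRm, mem_filter] at hl'
          exact absurd (hPm l hl).2.2 (not_le.mpr hl'.2.2.1))
        (fun l hl => ⟨(hPm l hl).1, (hPm l hl).2.1, hPm4 l hl⟩)
        (by
          intro l hl
          rw [hRm, mem_filter] at hl
          refine ⟨(mem_pr.mp hl.1).1, hl.2.1, ?_, hl.2.2.2⟩
          have h2 := (mem_pr.mp hl.1).2
          calc (l : ℝ) ^ 4 ≤ (Real.sqrt (Real.sqrt Y)) ^ 4 :=
                pow_le_pow_left₀ (Nat.cast_nonneg _) h2 4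
            _ = ((Real.sqrt (Real.sqrt Y)) ^ 2) ^ 2 := by ring
            _ = Y := by rw [Real.sq_sqrt (Real.sqrt_nonneg _), Real.sq_sqrt (by linarith)])
      refine ⟨h1.1, h1.2.trans ?_⟩
      apply mul_le_mul_of_nonneg_left
      · have h2 := sum_R L n hram B hB C4 hmer M1 Y hM9 hM1Y m hm1 (hmM.trans hMM1)
        have h3 : -(1 / 2 * ∑ l ∈ Rm m, (N1 L l : ℝ) / l) ≤
            C5 / 2 + (Real.log (Real.log M1) * (1 / 2) - Real.log (Real.log Y) * (1 / 2)) := by
          simp only [hRm, hC5]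
          linarith
        refine (Real.exp_le_exp.mpr h3).trans (le_of_eq ?_)
        rw [hG, Real.exp_add, Real.exp_sub, Real.sqrt_eq_rpow, Real.sqrt_eq_rpow,
          Real.rpow_def_of_pos hlM1, Real.rpow_def_of_pos (by linarith : 0 < Real.log Y)]
      · have := hw0 m
        positivity
    -- the fibres
    have hcard : (S.ncard : ℝ) ≤ ∑ m ∈ I, C3 * Y ^ n * w m * G := by
      rw [Set.ncard_eq_toFinset_card S hSfin]
      have h1 : hSfin.toFinset.card = ∑ m ∈ I, (hSfin.toFinset.filter (fun p => p.2 = m)).card := by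
        apply card_eq_sum_card_fiberwise
        intro p hp
        rw [mem_coe, Set.Finite.mem_toFinset] at hp
        rw [mem_coe, hI, mem_Icc]
        exact ⟨hp.2.1, Int.le_floor.mpr hp.2.2.1⟩
      rw [h1]
      push_cast
      apply sum_le_sum
      intro m hm
      refine le_trans ?_ (hfib m hm).2
      rw [← card_image_of_injOn (f := Prod.fst)]
      · rw [← Set.ncard_coe_finset]
        have h2 : (((hSfin.toFinset.filter (fun p => p.2 = m)).image Prod.fst : Finset (𝓞 L)) :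
            Set (𝓞 L)) ⊆ {α : 𝓞 L | (α, m) ∈ T ∧ ∀ σ : L →+* ℂ, ‖σ (α : L)‖ ≤ Y} := by
          intro α hα
          rw [mem_coe, mem_image] at hα
          obtain ⟨p, hp, rfl⟩ := hα
          rw [mem_filter, Set.Finite.mem_toFinset] at hp
          refine ⟨?_, hp.1.2.2.2⟩
          rw [← hp.2]
          exact hp.1.1
        exact_mod_cast Set.ncard_le_ncard h2 (hfib m hm).1
      · intro p hp p' hp' hpp
        rw [mem_coe, mem_filter] at hp hp'
        exact Prod.ext hpp (hp.2.trans hp'.2.symm)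
    have hF := hfsm T hT M1 P I (by linarith) (fun l hl => ⟨(hPm l hl).1, (hPm l hl).2.1⟩)
      (by
        intro l hl hlB hlM
        rw [hP, mem_filter]
        exact ⟨mem_pr.mpr ⟨hl, Real.le_sqrt_of_sq_le hlM⟩, hlB⟩)
      (by
        intro m hm
        have h1 := hImem m hm
        have h2 : (1 : ℝ) ≤ m := by exact_mod_cast h1.1
        rw [abs_of_nonneg (by linarith)]
        exact h1.2.trans hMM1)
    have hsum : ∑ m ∈ I, C3 * Y ^ n * w m * G = C3 * Y ^ n * G * ∑ m ∈ I, w m := by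
      rw [Finset.mul_sum]
      apply sum_congr rfl
      intro m _
      ring
    rw [hsum] at hcard
    set Sw : ℝ := ∑ m ∈ I, w m with hSw
    have hSw0 : 0 ≤ Sw := sum_nonneg (fun m _ => hw0 m)
    have hF' : Sw * (1 + Real.log M1) ≤ C2 * M1 := hF
    -- final estimate
    have k1 : Real.sqrt (1 + Real.log Y) ≤ 2 * Real.sqrt (Real.log Y) := by
      have h1 : Real.sqrt (1 + Real.log Y) ≤ Real.sqrt (2 ^ 2 * Real.log Y) := by
        apply Real.sqrt_le_sqrt
        linarith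
      rw [Real.sqrt_mul (by norm_num), Real.sqrt_sq (by norm_num)] at h1
      exact h1
    have k2 : Real.sqrt (Real.log M1) * Real.sqrt (1 + Real.log M) ≤ 1 + Real.log M1 := by
      have h1 : Real.sqrt (Real.log M1) ≤ Real.sqrt (1 + Real.log M1) := by
        apply Real.sqrt_le_sqrt; linarith
      have h2 : Real.sqrt (1 + Real.log M) ≤ Real.sqrt (1 + Real.log M1) := by
        apply Real.sqrt_le_sqrt
        have := Real.log_le_log (by linarith) hMM1
        linarith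
      calc _ ≤ Real.sqrt (1 + Real.log M1) * Real.sqrt (1 + Real.log M1) :=
            mul_le_mul h1 h2 (Real.sqrt_nonneg _) (Real.sqrt_nonneg _)
        _ = _ := Real.mul_self_sqrt (by linarith)
    have k3 : G * (Real.sqrt (1 + Real.log Y) * Real.sqrt (1 + Real.log M)) ≤
        Real.exp (C5 / 2) * 2 * (1 + Real.log M1) := by
      have h1 : Real.sqrt (1 + Real.log Y) / Real.sqrt (Real.log Y) ≤ 2 := by
        rw [div_le_iff₀ hsY]; exact k1
      calc G * (Real.sqrt (1 + Real.log Y) * Real.sqrt (1 + Real.log M))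
          = Real.exp (C5 / 2) * (Real.sqrt (1 + Real.log Y) / Real.sqrt (Real.log Y)) *
            (Real.sqrt (Real.log M1) * Real.sqrt (1 + Real.log M)) := by
            rw [hG]; field_simp
        _ ≤ Real.exp (C5 / 2) * 2 * (1 + Real.log M1) := by
            apply mul_le_mul _ k2 (by positivity) (by positivity)
            exact mul_le_mul_of_nonneg_left h1 (Real.exp_pos _).le
    calc (S.ncard : ℝ) * (Real.sqrt (1 + Real.log Y) * Real.sqrt (1 + Real.log M))
        ≤ (C3 * Y ^ n * G * Sw) * (Real.sqrt (1 + Real.log Y) * Real.sqrt (1 + Real.log M)) :=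
          mul_le_mul_of_nonneg_right hcard (by positivity)
      _ = C3 * Y ^ n * Sw *
          (G * (Real.sqrt (1 + Real.log Y) * Real.sqrt (1 + Real.log M))) := by ring
      _ ≤ C3 * Y ^ n * Sw * (Real.exp (C5 / 2) * 2 * (1 + Real.log M1)) :=
          mul_le_mul_of_nonneg_left k3 (by positivity)
      _ = C3 * Y ^ n * Real.exp (C5 / 2) * 2 * (Sw * (1 + Real.log M1)) := by ring
      _ ≤ C3 * Y ^ n * Real.exp (C5 / 2) * 2 * (C2 * (9 * M)) := by
          apply mul_le_mul_of_nonneg_left _ (by positivity)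
          exact hF'.trans (mul_le_mul_of_nonneg_left hM1M hC2.le)
      _ = 18 * C2 * C3 * Real.exp (C5 / 2) * Y ^ n * M := by ring
      _ ≤ _ := by
          have : 0 ≤ C1 * (1 + Real.log 6561) * Y ^ n * M := by positivity
          linarith

end Pool.Agent.Q208.EA
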